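import Pool.Agent.T9h59.SR.Spec3

/-!
# Values and norms of the integer vectors (pieces P3a-P3d)
-/

set_option autoImplicit false

namespace Pool.Agent.T9h71.SR

open Finset Pool.Agent.T9h59.SR

theorem sum_class {M : Type*} [AddCommMonoid M] {m r : ℕ} (hr : r < m) (g : ℕ → M) : ∀ l : ℕ,
    ∑ j ∈ range (m * l), (if j % m = r then g j else 0) = ∑ t ∈ range l, g (m * t + r)
  | 0 => by simp
  | l + 1 => by
    rw [Nat.mul_succ, Finset.sum_range_add, sum_class hr g l, Finset.sum_range_succ]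
    congr 1
    have h1 : ∀ x ∈ range m, (if (m * l + x) % m = r then g (m * l + x) else 0) =
        if x = r then g (m * l + x) else 0 := by
      intro x hx
      rw [Finset.mem_range] at hx
      rw [Nat.mul_add_mod, Nat.mod_eq_of_lt hx]
    rw [Finset.sum_congr rfl h1, Finset.sum_ite_eq' (range m) r, if_pos (Finset.mem_range.2 hr)]

theorem mem_GI {e : ℕ} {x : ℕ × ℕ} (h : x ∈ GI e) :
    x.1.Prime ∧ x.1 ∣ e ∧ e ≠ 0 ∧ x.2 < e / x.1 := by
  unfold GI at h
  rw [mem_filter, mem_product] at h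
  have h1 := Nat.mem_primeFactors.1 h.1.1
  exact ⟨h1.1, h1.2.1, h1.2.2, h.2⟩

theorem GG_sum {M : Type*} [AddCommMonoid M] {e : ℕ} {x : ℕ × ℕ} (h : x ∈ GI e) (g : ℕ → M) :
    ∑ j : Fin e, (if (j : ℕ) % (e / x.1) = x.2 then g j else 0) =
      ∑ t ∈ range x.1, g (e / x.1 * t + x.2) := by
  obtain ⟨h1, h2, h3, h4⟩ := mem_GI h
  rw [Fin.sum_univ_eq_sum_range (fun j => if j % (e / x.1) = x.2 then g j else 0) e]
  conv_lhs => rw [← Nat.div_mul_cancel h2]
  rw [← sum_class h4 g x.1]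
  rw [Nat.div_mul_cancel h2]

theorem stP3c : StP3c := by
  intro e x hx
  have h1 : ∀ j : Fin e, ((GG e x j : ℤ) : ℝ) ^ 2 =
      if (j : ℕ) % (e / x.1) = x.2 then (1 : ℝ) else 0 := by
    intro j
    unfold GG
    split_ifs <;> simp
  simp only [h1]
  rw [GG_sum hx (fun _ => (1 : ℝ))]
  simp

theorem stP3d : StP3d := by
  intro e x F _ ζ hx hζ
  obtain ⟨h1, h2, h3, h4⟩ := mem_GI hx
  unfold ev
  have h5 : ∀ j : Fin e, ((GG e x j : ℤ) : F) * ζ ^ (j : ℕ) =
      if (j : ℕ) % (e / x.1) = x.2 then ζ ^ (j : ℕ) else 0 := by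
    intro j
    unfold GG
    split_ifs <;> simp
  simp only [h5]
  rw [GG_sum hx (fun j => ζ ^ j)]
  have h6 : IsPrimitiveRoot (ζ ^ (e / x.1)) x.1 :=
    hζ.pow (Nat.pos_of_ne_zero h3) (Nat.div_mul_cancel h2).symm
  have h7 := h6.geom_sum_eq_zero h1.one_lt
  calc ∑ t ∈ range x.1, ζ ^ (e / x.1 * t + x.2) =
        ζ ^ x.2 * ∑ t ∈ range x.1, (ζ ^ (e / x.1)) ^ t := by
        rw [Finset.mul_sum]
        exact Finset.sum_congr rfl fun t _ => by rw [pow_add, pow_mul, mul_comm]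
    _ = 0 := by rw [h7, mul_zero]

theorem inj_mod {e b : ℕ} (hb : Nat.Coprime b e) {i i' : ℕ} (hi : i < e) (hi' : i' < e)
    (h : b * i % e = b * i' % e) : i = i' := by
  have h1 : b * i ≡ b * i' [MOD e] := h
  have h2 := Nat.ModEq.cancel_left_of_coprime (by rw [Nat.gcd_comm]; exact hb) h1
  exact Nat.ModEq.eq_of_lt_of_lt h2 hi hi'

theorem co_abs (e i : ℕ) : |co e i| ≤ 1 := by
  unfold co
  split_ifs <;> simp

theorem TT_abs {e b : ℕ} (hb : Nat.Coprime b e) (j : Fin e) : |TT e b j| ≤ 1 := by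
  unfold TT
  by_cases h : ∃ i ∈ range e, b * i % e = (j : ℕ)
  · obtain ⟨i, hi, h1⟩ := h
    rw [Finset.sum_eq_single i]
    · rw [if_pos h1]; exact co_abs e i
    · intro i' hi' hne
      rw [if_neg]
      intro h2
      exact hne (inj_mod hb (Finset.mem_range.1 hi') (Finset.mem_range.1 hi) (h2.trans h1.symm))
    · intro h2; exact absurd hi h2
  · rw [Finset.sum_eq_zero]
    · simp
    · intro i hi
      rw [if_neg]
      intro h1
      exact h ⟨i, hi, h1⟩

theorem stP3b : StP3b := by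
  intro e b _ hb
  have h1 : ∀ j : Fin e, ((TT e b j : ℤ) : ℝ) ^ 2 ≤ 1 := by
    intro j
    have h2 := TT_abs hb j
    have h3 : |((TT e b j : ℤ) : ℝ)| ≤ 1 := by exact_mod_cast h2
    rw [← sq_abs]
    exact pow_le_one₀ (abs_nonneg _) h3
  calc ∑ j : Fin e, ((TT e b j : ℤ) : ℝ) ^ 2 ≤ ∑ _j : Fin e, (1 : ℝ) :=
        Finset.sum_le_sum fun j _ => h1 j
    _ = e := by simp

theorem ev_TT {e b : ℕ} (he : 1 ≤ e) {F : Type*} [Field F] {ζ : F} (hζ : ζ ^ e = 1) :
    ev (fun j : Fin e => ((TT e b j : ℤ) : F)) ζ = ∑ i ∈ range e, ((co e i : ℤ) : F) * (ζ ^ b) ^ i := by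
  unfold ev TT
  have h1 : ∀ j : Fin e, (((∑ i ∈ range e, if b * i % e = (j : ℕ) then co e i else 0 : ℤ)) : F) *
      ζ ^ (j : ℕ) = ∑ i ∈ range e, if b * i % e = (j : ℕ) then ((co e i : ℤ) : F) * (ζ ^ b) ^ i
        else 0 := by
    intro j
    push_cast
    rw [Finset.sum_mul]
    refine Finset.sum_congr rfl fun i _ => ?_
    split_ifs with h
    · rw [← pow_mul, ← h, pow_eq_pow_mod (b * i) hζ]
    · rw [zero_mul]
  simp only [h1]
  rw [Finset.sum_comm]
  refine Finset.sum_congr rfl fun i _ => ?_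
  have h2 : b * i % e < e := Nat.mod_lt _ he
  rw [Finset.sum_eq_single (⟨b * i % e, h2⟩ : Fin e)]
  · rw [if_pos rfl]
  · intro j _ hj
    rw [if_neg]
    intro h3
    exact hj (Fin.ext h3.symm)
  · intro h3; exact absurd (Finset.mem_univ _) h3

theorem stP3a : StP3a := by
  intro e b F _ ζ he hb h2 hζ
  rw [ev_TT (by omega) hζ.pow_eq_one]
  have hz : IsPrimitiveRoot (ζ ^ b) e := hζ.pow_of_coprime b hb
  set z := ζ ^ b with hzd
  have hz1 : z - 1 ≠ 0 := sub_ne_zero.2 (hz.ne_one (by omega))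
  unfold cn
  by_cases hev : Even e
  · rw [if_pos hev]
    unfold ct
    obtain ⟨m, hm⟩ := hev
    have hm2 : e / 2 = m := by omega
    have hhalf : z ^ m = -1 := by
      have h3 : (z ^ m) ^ 2 = 1 := by rw [← pow_mul, ← hz.pow_eq_one]; congr 1; omega
      have h4 : z ^ m ≠ 1 := hz.pow_ne_one_of_pos_of_lt (by omega) (by omega)
      rcases mul_self_eq_one_iff.1 ((pow_two _).symm.trans h3) with h5 | h5
      · exact absurd h5 h4
      · exact h5
    have h3 : ∑ i ∈ range e, ((co e i : ℤ) : F) * z ^ i = - ∑ i ∈ Ico 1 m, z ^ i := by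
      rw [← Finset.sum_neg_distrib]
      have h4 : ∀ i ∈ range e, ((co e i : ℤ) : F) * z ^ i = if i ∈ Ico 1 m then - z ^ i else 0 := by
        intro i _
        unfold co
        rw [if_pos ⟨m, hm⟩, hm2]
        by_cases h5 : 1 ≤ i ∧ i < m
        · rw [if_pos h5, if_pos (Finset.mem_Ico.2 h5)]; simp
        · rw [if_neg h5, if_neg (fun h => h5 (Finset.mem_Ico.1 h))]; simp
      rw [Finset.sum_congr rfl h4, Finset.sum_ite_mem]
      congr 1
      ext i
      simp only [Finset.mem_inter, Finset.mem_range, Finset.mem_Ico]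
      omega
    rw [h3, eq_div_iff hz1]
    have h5 : (∑ i ∈ Ico 1 m, z ^ i) * (z - 1) = z ^ m - z ^ 1 := by
      exact geom_sum_Ico_mul z (by omega)
    rw [neg_mul, h5, hhalf]
    ring
  · rw [if_neg hev]
    unfold tn
    have hodd : Odd e := Nat.not_even_iff_odd.1 hev
    have hz2 : z + 1 ≠ 0 := by
      intro h3
      have h4 : z = -1 := by linear_combination h3
      have h5 := hz.pow_eq_one
      rw [h4, hodd.neg_one_pow] at h5
      exact h2 (by linear_combination -h5)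
    have h3 : ∑ i ∈ range e, ((co e i : ℤ) : F) * z ^ i = - ∑ i ∈ Ico 1 e, (-z) ^ i := by
      rw [← Finset.sum_neg_distrib]
      have h4 : ∀ i ∈ range e, ((co e i : ℤ) : F) * z ^ i =
          if i ∈ Ico 1 e then - (-z) ^ i else 0 := by
        intro i _
        unfold co
        rw [if_neg hev]
        by_cases h5 : 1 ≤ i ∧ i < e
        · rw [if_pos h5, if_pos (Finset.mem_Ico.2 h5)]
          by_cases h6 : Even i
          · rw [if_pos h6, h6.neg_pow]; simp
          · rw [if_neg h6, (Nat.not_even_iff_odd.1 h6).neg_pow]; simp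
        · rw [if_neg h5, if_neg (fun h => h5 (Finset.mem_Ico.1 h))]; simp
      rw [Finset.sum_congr rfl h4, Finset.sum_ite_mem]
      congr 1
      ext i
      simp only [Finset.mem_inter, Finset.mem_range, Finset.mem_Ico]
      omega
    rw [h3, eq_div_iff hz2]
    have h5 : (∑ i ∈ Ico 1 e, (-z) ^ i) * (-z - 1) = (-z) ^ e - (-z) ^ 1 := by
      exact geom_sum_Ico_mul (-z) (by omega)
    rw [hodd.neg_pow, hz.pow_eq_one, pow_one] at h5
    linear_combination h5

end Pool.Agent.T9h71.SR
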