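import Pool.Agent.T9h59.SR.Spec3

/-!
# Tangents and cotangents modulo `p` (piece P4)
-/

set_option autoImplicit false

namespace Pool.Agent.T9h71.SR

open Finset Pool.Agent.T9h59.SR

/-- The preimage of a subgroup under an endomorphism of a finite group is at least as large. -/
theorem card_comap {V : Type*} [AddCommGroup V] [Finite V] (T : V →+ V) (W : AddSubgroup V) :
    Nat.card W ≤ Nat.card (W.comap T) := by
  have h1 : (W.comap T).index ≤ W.index := by
    rw [AddSubgroup.index_comap]
    exact Nat.le_of_dvd (Nat.pos_of_ne_zero AddSubgroup.index_ne_zero_of_finite)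
      (AddSubgroup.relIndex_dvd_index_of_normal W T.range)
  have h2 := W.card_mul_index
  have h3 := (W.comap T).card_mul_index
  have h4 : 0 < (W.comap T).index := Nat.pos_of_ne_zero AddSubgroup.index_ne_zero_of_finite
  by_contra h5
  push Not at h5
  have h6 : Nat.card (W.comap T) * (W.comap T).index < Nat.card W * W.index :=
    Nat.mul_lt_mul_of_lt_of_le h5 h1 (by omega)
  omega

theorem tn_eq {F : Type*} [Field F] {z : F} (h1 : z - 1 ≠ 0) (h2 : z + 1 ≠ 0) :
    tn z = 2 * ct (z ^ 2) - ct z := by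
  unfold tn ct
  have h3 : z ^ 2 - 1 ≠ 0 := by
    have : z ^ 2 - 1 = (z - 1) * (z + 1) := by ring
    rw [this]; exact mul_ne_zero h1 h2
  field_simp
  ring

theorem ct_inv {F : Type*} [Field F] {z w : F} (h : z * w = 1) (h1 : z - 1 ≠ 0) :
    ct z = - ct w := by
  unfold ct
  have hz : z ≠ 0 := by rintro rfl; simp at h
  have hw : w = z⁻¹ := by field_simp; linear_combination h
  have h2 : w - 1 ≠ 0 := by
    intro h3
    have : w = 1 := by linear_combination h3
    rw [this, mul_one] at h
    exact h1 (by rw [h, sub_self])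
  rw [div_eq_iff h1, ← neg_div, div_mul_eq_mul_div, eq_div_iff h2]
  linear_combination (2 : F) * h

/-- `2 b` or `e - 2 b` -/
theorem exists_s {e b : ℕ} (_he : 3 ≤ e) (ho : Odd e) (hb : b ∈ B e) :
    ∃ c ∈ B e, c = 2 * b ∨ c + 2 * b = e := by
  obtain ⟨⟨h1, h2⟩, h3⟩ := mem_B.1 hb
  obtain ⟨m, hm⟩ := ho
  have hc : Nat.Coprime (2 * b) e := by
    refine Nat.Coprime.mul_left ?_ h3
    rw [hm]
    exact (Nat.coprime_two_left).2 ⟨m, rfl⟩
  by_cases h4 : 2 * b < (e + 1) / 2
  · exact ⟨2 * b, mem_B.2 ⟨⟨by omega, h4⟩, hc⟩, Or.inl rfl⟩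
  · refine ⟨e - 2 * b, mem_B.2 ⟨⟨by omega, by omega⟩, ?_⟩, Or.inr (by omega)⟩
    have h5 : e = (e - 2 * b) + 2 * b := by omega
    have h6 : Nat.Coprime (e - 2 * b) (2 * b) :=
      (Nat.coprime_sub_self_left (by omega)).2 hc.symm
    have h7 : Nat.Coprime (e - 2 * b) ((e - 2 * b) + 2 * b) := Nat.coprime_self_add_right.2 h6
    rwa [← h5] at h7

theorem stP4 : StP4 := by
  classical
  intro p _ e he ho hp
  set F := AlgebraicClosure (ZMod p) with hF
  have h2 : (2 : F) ≠ 0 := by
    have : ((2 : ℕ) : F) ≠ 0 := by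
      rw [Ne, CharP.cast_eq_zero_iff F p]
      intro h
      have := Nat.le_of_dvd (by norm_num) h
      omega
    exact_mod_cast this
  choose s hs hs2 using fun b : B e => exists_s he ho b.2
  set ε : B e → ZMod p := fun b => if s b = 2 * b.1 then 1 else -1 with hε
  let T : (B e → ZMod p) →+ (B e → ZMod p) :=
    { toFun := fun l c => ∑ b : B e, l b * (2 * ε b * (if (c : ℕ) = s b then 1 else 0) -
        (if c = b then 1 else 0))
      map_zero' := by funext c; simp
      map_add' := by
        intro l l'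
        funext c
        simp only [Pi.add_apply, add_mul, Finset.sum_add_distrib] }
  have hT : ∀ l c, T l c = ∑ b : B e, l b * (2 * ε b * (if (c : ℕ) = s b then 1 else 0) -
        (if c = b then 1 else 0)) := fun _ _ => rfl
  let W : AddSubgroup (B e → ZMod p) :=
    { carrier := {l | ∀ ζ : F, IsPrimitiveRoot ζ e →
        ∑ b : B e, algebraMap (ZMod p) F (l b) * ct (ζ ^ (b : ℕ)) = 0}
      zero_mem' := by intro ζ _; simp
      add_mem' := by
        intro l l' h h' ζ hζ
        simp only [Pi.add_apply, map_add, add_mul, Finset.sum_add_distrib]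
        rw [h ζ hζ, h' ζ hζ, add_zero]
      neg_mem' := by
        intro l h ζ hζ
        have h3 : ∑ b : B e, algebraMap (ZMod p) F ((-l) b) * ct (ζ ^ (b : ℕ)) =
            -(∑ b : B e, algebraMap (ZMod p) F (l b) * ct (ζ ^ (b : ℕ))) := by
          rw [← Finset.sum_neg_distrib]
          refine Finset.sum_congr rfl fun b _ => ?_
          rw [Pi.neg_apply, map_neg]
          ring
        rw [h3, h ζ hζ, neg_zero] }
  have key : ∀ (l : B e → ZMod p) (ζ : F), IsPrimitiveRoot ζ e →
      ∑ b : B e, algebraMap (ZMod p) F (l b) * tn (ζ ^ (b : ℕ)) =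
        ∑ c : B e, algebraMap (ZMod p) F (T l c) * ct (ζ ^ (c : ℕ)) := by
    intro l ζ hζ
    have k1 : ∀ b : B e, tn (ζ ^ (b : ℕ)) =
        2 * algebraMap (ZMod p) F (ε b) * ct (ζ ^ (s b)) - ct (ζ ^ (b : ℕ)) := by
      intro b
      have hz : IsPrimitiveRoot (ζ ^ (b : ℕ)) e := hζ.pow_of_coprime _ (mem_B.1 b.2).2
      have hz1 : ζ ^ (b : ℕ) - 1 ≠ 0 := sub_ne_zero.2 (hz.ne_one (by omega))
      have hz2 : ζ ^ (b : ℕ) + 1 ≠ 0 := by
        intro h3
        have h4 : ζ ^ (b : ℕ) = -1 := by linear_combination h3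
        have h5 := hz.pow_eq_one
        rw [h4, ho.neg_one_pow] at h5
        exact h2 (by linear_combination -h5)
      rw [tn_eq hz1 hz2]
      congr 1
      rw [mul_assoc]
      congr 1
      rw [hε]
      by_cases h3 : s b = 2 * b.1
      · simp only [h3, if_true, map_one, one_mul]
        rw [← pow_mul, mul_comm]
      · simp only [h3, if_false, map_neg, map_one]
        have h4 := (hs2 b).resolve_left h3
        have h10 : ct ((ζ ^ (b : ℕ)) ^ 2) = - ct (ζ ^ (s b)) := by
         refine ct_inv ?_ ?_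
         · rw [← pow_mul, ← pow_add, ← hζ.pow_eq_one]
           congr 1
           omega
         · have h5 : IsPrimitiveRoot (ζ ^ (s b)) e := hζ.pow_of_coprime _ (mem_B.1 (hs b)).2
           have h6 : (ζ ^ (b : ℕ)) ^ 2 * ζ ^ (s b) = 1 := by
             rw [← pow_mul, ← pow_add, ← hζ.pow_eq_one]
             congr 1
             omega
           intro h7
           have h8 : (ζ ^ (b : ℕ)) ^ 2 = 1 := by linear_combination h7
           rw [h8, one_mul] at h6
           exact h5.ne_one (by omega) h6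
        rw [h10]
        ring
    have k2 : ∀ c : B e, algebraMap (ZMod p) F (T l c) * ct (ζ ^ (c : ℕ)) =
        ∑ b : B e, algebraMap (ZMod p) F (l b) *
          (2 * algebraMap (ZMod p) F (ε b) * (if (c : ℕ) = s b then ct (ζ ^ (c : ℕ)) else 0) -
            (if c = b then ct (ζ ^ (c : ℕ)) else 0)) := by
      intro c
      rw [hT, map_sum, Finset.sum_mul]
      refine Finset.sum_congr rfl fun b _ => ?_
      rw [map_mul, map_sub, map_mul, map_mul, map_ofNat]
      split_ifs <;> simp <;> ring
    simp only [k2]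
    rw [Finset.sum_comm]
    refine Finset.sum_congr rfl fun b _ => ?_
    rw [← Finset.mul_sum, Finset.sum_sub_distrib, ← Finset.mul_sum, k1 b]
    congr 2
    · congr 1
      rw [Finset.sum_eq_single (⟨s b, hs b⟩ : B e)]
      · simp
      · intro c _ hc
        rw [if_neg]
        intro h3
        exact hc (Subtype.ext h3)
      · intro h3; exact absurd (Finset.mem_univ _) h3
    · rw [Finset.sum_ite_eq' Finset.univ b]
      simp
  have h3 := card_comap T W
  refine (le_of_eq ?_).trans (h3.trans (le_of_eq ?_))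
  · rfl
  · refine Nat.card_congr (Equiv.subtypeEquivRight fun l => ?_)
    show (∀ ζ : F, IsPrimitiveRoot ζ e →
        ∑ b : B e, algebraMap (ZMod p) F (T l b) * ct (ζ ^ (b : ℕ)) = 0) ↔ _
    constructor
    · intro h ζ hζ; rw [key l ζ hζ]; exact h ζ hζ
    · intro h ζ hζ; rw [← key l ζ hζ]; exact h ζ hζ

end Pool.Agent.T9h71.SR
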