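import Pool.Agent.T9h59.SR.Spec3

/-!
# A sum over primes and multiples (piece P9)
-/

set_option autoImplicit false

namespace Pool.Agent.T9h71.SR

open Finset Pool.Agent.T9h59.SR

theorem log_term (l : ℕ) (hl : 1 ≤ l) : Real.log l / 2 * (1 / (l : ℝ)) ^ 2 ≤ 1 / (l : ℝ) ^ (3 / 2 : ℝ) := by
  have h0 : (0 : ℝ) < l := by exact_mod_cast hl
  have h1 : Real.log l ≤ 2 * (l : ℝ) ^ (1 / 2 : ℝ) := by
    have h2 : Real.log ((l : ℝ) ^ (1 / 2 : ℝ)) = 1 / 2 * Real.log l := Real.log_rpow h0 _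
    have h3 := Real.log_le_sub_one_of_pos (Real.rpow_pos_of_pos h0 (1 / 2 : ℝ))
    rw [h2] at h3
    linarith
  have h4 : (l : ℝ) ^ (3 / 2 : ℝ) * (l : ℝ) ^ (1 / 2 : ℝ) = (l : ℝ) ^ 2 := by
    rw [← Real.rpow_add h0, ← Real.rpow_natCast]
    norm_num
  have h5 : (0 : ℝ) < (l : ℝ) ^ (3 / 2 : ℝ) := Real.rpow_pos_of_pos h0 _
  have h6 : (0 : ℝ) < (l : ℝ) ^ (1 / 2 : ℝ) := Real.rpow_pos_of_pos h0 _
  have h7 : (1 / (l : ℝ)) ^ 2 = ((l : ℝ) ^ (3 / 2 : ℝ))⁻¹ * ((l : ℝ) ^ (1 / 2 : ℝ))⁻¹ := by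
    rw [← mul_inv, h4, one_div, inv_pow]
  rw [h7]
  calc Real.log l / 2 * (((l : ℝ) ^ (3 / 2 : ℝ))⁻¹ * ((l : ℝ) ^ (1 / 2 : ℝ))⁻¹)
      ≤ (l : ℝ) ^ (1 / 2 : ℝ) * (((l : ℝ) ^ (3 / 2 : ℝ))⁻¹ * ((l : ℝ) ^ (1 / 2 : ℝ))⁻¹) := by
        refine mul_le_mul_of_nonneg_right (by linarith) (by positivity)
    _ = 1 / (l : ℝ) ^ (3 / 2 : ℝ) := by
        field_simp

theorem inner_le (C l : ℕ) : ∑ e ∈ (Icc 1 C).filter (fun e => l ∣ e), ((e / l : ℕ) : ℝ) ≤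
    ((C / l : ℕ) : ℝ) ^ 2 := by
  calc ∑ e ∈ (Icc 1 C).filter (fun e => l ∣ e), ((e / l : ℕ) : ℝ)
      ≤ ∑ e ∈ (Icc 1 C).filter (fun e => l ∣ e), ((C / l : ℕ) : ℝ) := by
        refine sum_le_sum fun e he => ?_
        rw [mem_filter, mem_Icc] at he
        exact_mod_cast Nat.div_le_div_right he.1.2
    _ = ((C / l : ℕ) : ℝ) ^ 2 := by
        rw [sum_const, nsmul_eq_mul]
        have h1 : #((Icc 1 C).filter (fun e => l ∣ e)) = C / l := by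
          have := Nat.Ioc_filter_dvd_card_eq_div C l
          rw [← this]
          congr 1
        rw [h1]
        ring

theorem stP9 : StP9 := by
  have hs : Summable (fun l : ℕ => 1 / (l : ℝ) ^ (3 / 2 : ℝ)) :=
    Real.summable_one_div_nat_rpow.2 (by norm_num)
  refine ⟨∑' l : ℕ, 1 / (l : ℝ) ^ (3 / 2 : ℝ), fun C => ?_⟩
  have h1 : ∑ e ∈ Icc 3 C, ∑ l ∈ e.primeFactors, ((e / l : ℕ) : ℝ) * Real.log l / 2 ≤
      ∑ e ∈ Icc 1 C, ∑ l ∈ Icc 1 C, if l ∣ e then ((e / l : ℕ) : ℝ) * Real.log l / 2 else 0 := by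
    have hnn : ∀ e l : ℕ, (0 : ℝ) ≤ ((e / l : ℕ) : ℝ) * Real.log l / 2 := fun e l => by
      have := Real.log_natCast_nonneg l
      positivity
    refine le_trans (sum_le_sum fun e he => ?_)
      (sum_le_sum_of_subset_of_nonneg (Icc_subset_Icc (by norm_num) le_rfl) ?_)
    · rw [mem_Icc] at he
      rw [← sum_filter]
      refine sum_le_sum_of_subset_of_nonneg ?_ fun l _ _ => hnn e l
      intro l hl
      have h2 := Nat.mem_primeFactors.1 hl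
      rw [mem_filter, mem_Icc]
      exact ⟨⟨h2.1.one_lt.le, (Nat.le_of_dvd (by omega) h2.2.1).trans he.2⟩, h2.2.1⟩
    · intro e _ _
      refine sum_nonneg fun l _ => ?_
      split_ifs
      · exact hnn e l
      · exact le_rfl
  refine h1.trans ?_
  rw [sum_comm]
  calc ∑ l ∈ Icc 1 C, ∑ e ∈ Icc 1 C, (if l ∣ e then ((e / l : ℕ) : ℝ) * Real.log l / 2 else 0)
      ≤ ∑ l ∈ Icc 1 C, 1 / (l : ℝ) ^ (3 / 2 : ℝ) * (C : ℝ) ^ 2 := by
        refine sum_le_sum fun l hl => ?_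
        rw [mem_Icc] at hl
        have hl0 : (0 : ℝ) < l := by exact_mod_cast hl.1
        rw [← sum_filter, ← sum_div, ← sum_mul]
        have h2 := inner_le C l
        have h3 : ((C / l : ℕ) : ℝ) ≤ (C : ℝ) / l := Nat.cast_div_le
        have h4 : ((C / l : ℕ) : ℝ) ^ 2 ≤ ((C : ℝ) / l) ^ 2 :=
          pow_le_pow_left₀ (Nat.cast_nonneg _) h3 2
        have h5 : 0 ≤ Real.log l := Real.log_natCast_nonneg l
        calc (∑ e ∈ (Icc 1 C).filter (fun e => l ∣ e), ((e / l : ℕ) : ℝ)) * Real.log l / 2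
            ≤ ((C : ℝ) / l) ^ 2 * Real.log l / 2 := by
              have := mul_le_mul_of_nonneg_right (h2.trans h4) h5
              linarith
          _ = (Real.log l / 2 * (1 / (l : ℝ)) ^ 2) * (C : ℝ) ^ 2 := by
              field_simp
          _ ≤ _ := mul_le_mul_of_nonneg_right (log_term l hl.1) (by positivity)
    _ = (∑ l ∈ Icc 1 C, 1 / (l : ℝ) ^ (3 / 2 : ℝ)) * (C : ℝ) ^ 2 := by rw [sum_mul]
    _ ≤ _ := by
        refine mul_le_mul_of_nonneg_right ?_ (by positivity)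
        exact hs.sum_le_tsum _ fun l _ => by positivity

end Pool.Agent.T9h71.SR
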